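import Pool.Agent.H27.Bumps

set_option autoImplicit false

open Filter Topology MeasureTheory Real Pool.Agent.H27.Bumps

namespace Pool.Agent.Results.MP_0fb7ac_an.BigDiam

/-- The length of `γ : [0, 1] → ℝ²` in the metric `e^{2u} δ`. -/
noncomputable def length (u : ℝ × ℝ → ℝ) (γ : ℝ → ℝ × ℝ) : ENNReal :=
  ∫⁻ t in Set.Ioc (0 : ℝ) 1,
    ENNReal.ofReal (exp (u (γ t)) * √((deriv γ t).1 ^ 2 + (deriv γ t).2 ^ 2))

theorem dmax (t : ℝ) : HasDerivAt (fun t : ℝ => max t 0 ^ 2) (2 * max t 0) t := by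
  rcases lt_trichotomy t 0 with h | rfl | h
  · rw [max_eq_right h.le, mul_zero]
    exact (hasDerivAt_const t (0 : ℝ)).congr_of_eventuallyEq
      ((gt_mem_nhds h).mono fun s hs => by simp [hs.le])
  · rw [hasDerivAt_iff_tendsto_slope_zero]
    have : Tendsto (fun s : ℝ => max s 0) (𝓝[≠] 0) (𝓝 (2 * max 0 0)) := by
      exact ((continuous_id.max continuous_const).tendsto' (0 : ℝ) _ (by simp)).mono_left
        nhdsWithin_le_nhds
    refine this.congr' (eventually_mem_nhdsWithin.mono fun s hs => ?_)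
    have : s ≠ 0 := hs
    rcases le_total s 0 with h | h <;> simp [h, sq, this]
  · rw [max_eq_left h.le]
    exact (by simpa using hasDerivAt_pow 2 t : HasDerivAt (fun t : ℝ => t ^ 2) (2 * t) t).congr_of_eventuallyEq
      ((lt_mem_nhds h).mono fun s hs => by simp [hs.le])

/-- Cut-off profile. -/
noncomputable def G (s : ℝ) : ℝ := 2 / 625 * max (24 - s) 0 ^ 2 / (1 + s)

theorem dG {a t : ℝ} (ha : a = 10 ^ 6 ∨ a = -10 ^ 6) {γ : ℝ → ℝ × ℝ} (h : DifferentiableAt ℝ γ t) :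
    ∃ d, HasDerivAt (fun t => G ((γ t).2 ^ 2 + ((γ t).1 - a) ^ 2)) d t ∧
      (24 ≤ (γ t).2 ^ 2 + ((γ t).1 - a) ^ 2 → d = 0) ∧
      197 / 200 * |d| ≤ exp (v (γ t)) * √((deriv γ t).1 ^ 2 + (deriv γ t).2 ^ 2) := by
  have hx : HasDerivAt (fun t => (γ t).1) (deriv γ t).1 t :=
    (ContinuousLinearMap.fst ℝ ℝ ℝ).hasFDerivAt.comp_hasDerivAt t h.hasDerivAt
  have hy : HasDerivAt (fun t => (γ t).2) (deriv γ t).2 t :=
    (ContinuousLinearMap.snd ℝ ℝ ℝ).hasFDerivAt.comp_hasDerivAt t h.hasDerivAt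
  have h1 := (hy.fun_pow 2).fun_add ((hx.sub_const a).fun_pow 2)
  have hs : 0 ≤ (γ t).2 ^ 2 + ((γ t).1 - a) ^ 2 := by positivity
  have h2 := (((dmax _).comp t (h1.const_sub 24)).const_mul (2 / 625)).fun_div (h1.const_add 1)
    (by positivity)
  refine ⟨_, h2, fun h => by simp [h], ?_⟩
  rcases le_total 24 ((γ t).2 ^ 2 + ((γ t).1 - a) ^ 2) with h | h
  · simp only [Function.comp, max_eq_right (sub_nonpos.2 h)]; simp; positivity
  refine le_trans ?_ (mul_le_mul_of_nonneg_right (near ha (by linarith)) (sqrt_nonneg _))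
  have h3 : |2 * (γ t).2 * (deriv γ t).2 + 2 * ((γ t).1 - a) * (deriv γ t).1| ≤
      (1 + ((γ t).2 ^ 2 + ((γ t).1 - a) ^ 2)) * √((deriv γ t).1 ^ 2 + (deriv γ t).2 ^ 2) := by
    refine abs_le_of_sq_le_sq ?_ (by positivity)
    rw [mul_pow, sq_sqrt (by positivity)]
    nlinarith [sq_nonneg ((γ t).2 * (deriv γ t).1 - ((γ t).1 - a) * (deriv γ t).2),
      mul_nonneg (sq_nonneg (1 - ((γ t).2 ^ 2 + ((γ t).1 - a) ^ 2)))
        (add_nonneg (sq_nonneg (deriv γ t).1) (sq_nonneg (deriv γ t).2))]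
  simp only [Function.comp, max_eq_left (sub_nonneg.2 h), add_assoc, Nat.cast_ofNat,
    Nat.add_one_sub_one, pow_one]
  generalize (γ t).2 ^ 2 + ((γ t).1 - a) ^ 2 = s at *
  generalize 2 * (γ t).2 * (deriv γ t).2 + 2 * ((γ t).1 - a) * (deriv γ t).1 = w at *
  generalize √((deriv γ t).1 ^ 2 + (deriv γ t).2 ^ 2) = r at *
  have e : (2 / 625 * (2 * (24 - s) * -w) * (1 + s) - 2 / 625 * (24 - s) ^ 2 * w) / (1 + s) ^ 2 =
      -(2 / 625 * (24 - s) * (26 + s) / (1 + s) ^ 2 * w) := by field_simp; ring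
  have h4 : 0 ≤ 24 - s := by linarith
  rw [e, abs_neg, abs_mul, abs_of_nonneg (by positivity)]
  calc _ ≤ 197 / 200 * (2 / (1 + s) ^ 2 * ((1 + s) * r)) := by gcongr; nlinarith
    _ = _ := by field_simp; ring

theorem result : ∃ u : ℝ × ℝ → ℝ, ContDiff ℝ 2 u ∧ (∀ p, lap u p + exp (2 * u p) ≤ 0) ∧
    Integrable (fun p => exp (2 * u p)) ∧ ∃ (p q : ℝ × ℝ) (c : ℝ), π < c ∧
      ∀ (γ : ℝ → ℝ × ℝ) (T : Finset ℝ), ContinuousOn γ (Set.Icc 0 1) → γ 0 = p → γ 1 = q →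
        (∀ t ∈ Set.Ioo (0 : ℝ) 1, t ∉ T → DifferentiableAt ℝ γ t) →
        ENNReal.ofReal c ≤ length u γ := by
  refine ⟨v, smooth, super, integ, (-10 ^ 6, 0), (10 ^ 6, 0), 18 / 5, by linarith [pi_lt_d2],
    fun γ T hc h0 h1 hd => ?_⟩
  let f : ℝ → ℝ := fun t => 197 / 200 * (G ((γ t).2 ^ 2 + ((γ t).1 - 10 ^ 6) ^ 2) -
    G ((γ t).2 ^ 2 + ((γ t).1 - -10 ^ 6) ^ 2))
  have key : ∀ t ∈ Set.Ioo (0 : ℝ) 1 \ T, HasDerivAt f (deriv f t) t ∧
      |deriv f t| ≤ exp (v (γ t)) * √((deriv γ t).1 ^ 2 + (deriv γ t).2 ^ 2) := fun t ht => by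
    obtain ⟨d, a1, a2, a3⟩ := dG (Or.inl rfl) (hd t ht.1 ht.2)
    obtain ⟨e, b1, b2, b3⟩ := dG (Or.inr rfl) (hd t ht.1 ht.2)
    have h := (a1.fun_sub b1).const_mul (197 / 200)
    refine ⟨h.differentiableAt.hasDerivAt, ?_⟩
    rw [h.deriv, abs_mul, abs_of_pos (by norm_num)]
    rcases le_total (γ t).1 0 with h | h
    · rwa [a2 (by nlinarith [sq_nonneg (γ t).2]), zero_sub, abs_neg]
    · rwa [b2 (by nlinarith [sq_nonneg (γ t).2]), sub_zero]
  have hle : ∫⁻ t in Set.Ioc (0 : ℝ) 1, ‖deriv f t‖ₑ ≤ length v γ := by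
    refine lintegral_mono_ae ?_
    rw [ae_restrict_iff' measurableSet_Ioc]
    filter_upwards [(T.countable_toSet.insert 1).ae_notMem volume] with t ht h
    rw [Set.mem_insert_iff, not_or] at ht
    rw [← ofReal_norm_eq_enorm]
    exact ENNReal.ofReal_le_ofReal (key t ⟨⟨h.1, lt_of_le_of_ne h.2 ht.1⟩, ht.2⟩).2
  refine le_trans ?_ hle
  by_contra hlt
  have hi : IntegrableOn (deriv f) (Set.Ioc 0 1) :=
    ⟨(measurable_deriv f).aestronglyMeasurable, (not_le.1 hlt).trans ENNReal.ofReal_lt_top⟩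
  have h2 := integral_eq_of_hasDerivAt_off_countable_of_le f (deriv f) zero_le_one
    T.countable_toSet (by simp only [f, G]; fun_prop (disch := intros; positivity))
    (fun t ht => (key t ht).1) ((intervalIntegrable_iff_integrableOn_Ioc_of_le zero_le_one).2 hi)
  rw [intervalIntegral.integral_of_le zero_le_one] at h2
  refine hlt (le_trans ?_ (enorm_integral_le_lintegral_enorm _))
  rw [h2, ← ofReal_norm_eq_enorm]
  refine ENNReal.ofReal_le_ofReal (le_trans ?_ (le_abs_self _))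
  simp only [f, G, h0, h1]
  norm_num

end Pool.Agent.Results.MP_0fb7ac_an.BigDiam
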